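import Pool.Agent.Helper864_GV.Basic

set_option autoImplicit false

open Cardinal

namespace Pool.Agent.Results.MP_a3089e_lc.NoGalvinPower

/-- If `2^κ = κ⁺`, no `κ`-complete fine normal ultrafilter `U` over `P_κ(κ⁺)` satisfies
`Gal(U, κ, 2^κ⁺)`: some family of `2^κ⁺` members of `U` has no subfamily of size `κ` whose
intersection is in `U`. -/
theorem result (κ : Cardinal.{0}) (X : Type) (hκ : Cardinal.aleph0 < κ)
    (hX : Cardinal.mk X = Order.succ κ) (h2 : (2 : Cardinal.{0}) ^ κ = Order.succ κ)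
    (U : Ultrafilter {x : Set X // Cardinal.mk x < κ})
    (_complete : ∀ S : Set (Set {x : Set X // Cardinal.mk x < κ}),
        Cardinal.mk S < κ → (∀ s ∈ S, s ∈ U) → ⋂₀ S ∈ U)
    (fine : ∀ a : X, {x : {x : Set X // Cardinal.mk x < κ} | a ∈ x.1} ∈ U)
    (normal : ∀ f : {x : Set X // Cardinal.mk x < κ} → X,
        {x : {x : Set X // Cardinal.mk x < κ} | f x ∈ x.1} ∈ U →
        ∃ a : X, {x : {x : Set X // Cardinal.mk x < κ} | f x = a} ∈ U) :
    ∃ S : Set (Set {x : Set X // Cardinal.mk x < κ}), (∀ s ∈ S, s ∈ U) ∧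
      Cardinal.mk S = (2 : Cardinal.{0}) ^ Order.succ κ ∧
      ∀ T ⊆ S, Cardinal.mk T = κ → ⋂₀ T ∉ U := by
  obtain ⟨ι, F, hι, hF⟩ := Helper864_GV.exists_family' hκ hX h2
  have hlt : κ < #ι := by
    rw [hι]
    exact (Order.lt_succ κ).trans (Cardinal.cantor _)
  obtain ⟨h1, h2⟩ := Helper864_GV.bad_of_family hκ hX U fine normal F hlt hF
  exact ⟨_, h1.1, h2.trans hι, h1.2⟩

end Pool.Agent.Results.MP_a3089e_lc.NoGalvinPower
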